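import Pool.Agent.Helper89.TQ.Spec

/-!
# TQ, part BRIDGE, first piece (helper95): monotonicity of winning in the shift order
-/

set_option autoImplicit false

namespace Pool.Agent.Helper95.TQ

open Finset Pool.Agent.R6.Trade Pool.Agent.Helper89.TQ

variable {N : Type} [Fintype N] [DecidableEq N] {W : Finset N → Prop} {τ : N → Fin 3}

theorem exists_out {S : Finset N} {i : Fin 3} (h : vec τ S i < nn τ i) : ∃ u, u ∉ S ∧ τ u = i := by
  by_contra hcon
  push Not at hcon
  have hsub : univ.filter (fun v => τ v = i) ⊆ S.filter (fun v => τ v = i) := by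
    intro v hv
    have hv' := (mem_filter.1 hv).2
    refine mem_filter.2 ⟨?_, hv'⟩
    by_contra hS
    exact hcon v hS hv'
  have h1 := card_le_card hsub
  unfold vec nn at h
  omega

theorem exists_in {S : Finset N} {i : Fin 3} (h : 0 < vec τ S i) : ∃ v, v ∈ S ∧ τ v = i := by
  unfold vec at h
  obtain ⟨v, hv⟩ := card_pos.1 h
  exact ⟨v, (mem_filter.1 hv).1, (mem_filter.1 hv).2⟩

theorem vec_insert {S : Finset N} {u : N} (hu : u ∉ S) (k : Fin 3) :
    vec τ (insert u S) k = vec τ S k + if τ u = k then 1 else 0 := by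
  unfold vec
  rw [filter_insert]
  by_cases h : τ u = k
  · rw [if_pos h, if_pos h, card_insert_of_notMem]
    intro h1
    exact hu (mem_filter.1 h1).1
  · rw [if_neg h, if_neg h, add_zero]

theorem vec_erase {S : Finset N} {u : N} (hu : u ∈ S) (k : Fin 3) :
    vec τ (S.erase u) k + (if τ u = k then 1 else 0) = vec τ S k := by
  have h1 := vec_insert (τ := τ) (S := S.erase u) (u := u) (notMem_erase u S) k
  rw [insert_erase hu] at h1
  exact h1.symm

theorem move_add (hmono : ∀ S T : Finset N, S ⊆ T → W S → W T) {S : Finset N} (hW : W S)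
    {i : Fin 3} (h : vec τ S i < nn τ i) :
    ∃ S', W S' ∧ ∀ k, vec τ S' k = vec τ S k + if i = k then 1 else 0 := by
  obtain ⟨u, hu, rfl⟩ := exists_out h
  exact ⟨insert u S, hmono _ _ (subset_insert u S) hW, vec_insert hu⟩

theorem move_swap (hA : ∀ u v, τ u ≤ τ v → AtLeast W u v) {S : Finset N} (hW : W S)
    {i j : Fin 3} (hij : i < j) (h : vec τ S i < nn τ i) (h' : 0 < vec τ S j) :
    ∃ S', W S' ∧ ∀ k, vec τ S' k + (if j = k then 1 else 0) =
      vec τ S k + if i = k then 1 else 0 := by
  obtain ⟨u, hu, rfl⟩ := exists_out h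
  obtain ⟨v, hv, rfl⟩ := exists_in h'
  have hu' : u ∉ S.erase v := fun h => hu (mem_of_mem_erase h)
  refine ⟨insert u (S.erase v), ?_, fun k => ?_⟩
  · apply hA u v hij.le (S.erase v) hu' (notMem_erase v S)
    rwa [insert_erase hv]
  · rw [vec_insert hu', ← vec_erase hv k]
    omega

theorem br1_aux (hmono : ∀ S T : Finset N, S ⊆ T → W S → W T)
    (hA : ∀ u v, τ u ≤ τ v → AtLeast W u v) (T : Finset N) (d : ℕ) :
    ∀ S : Finset N, W S → GE (vec τ T) (vec τ S) →
      3 * vec τ T 0 + 2 * vec τ T 1 + vec τ T 2 =
        3 * vec τ S 0 + 2 * vec τ S 1 + vec τ S 2 + d → W T := by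
  induction d using Nat.strong_induction_on with
  | _ d ih =>
    intro S hW hGE hd
    obtain ⟨g0, g1, g2⟩ := hGE
    have n0 := vec_le τ T 0
    have n1 := vec_le τ T 1
    have n2 := vec_le τ T 2
    have e01 : ((0 : Fin 3) = 1) = False := by simp
    have e02 : ((0 : Fin 3) = 2) = False := by simp
    have e10 : ((1 : Fin 3) = 0) = False := by simp
    have e12 : ((1 : Fin 3) = 2) = False := by simp
    have e20 : ((2 : Fin 3) = 0) = False := by simp
    have e21 : ((2 : Fin 3) = 1) = False := by simp
    by_cases c0 : vec τ S 0 < vec τ T 0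
    · have h0 : vec τ S 0 < nn τ 0 := by omega
      by_cases c1 : vec τ S 0 + vec τ S 1 < vec τ T 0 + vec τ T 1
      · by_cases c2 : vec τ S 0 + vec τ S 1 + vec τ S 2 < vec τ T 0 + vec τ T 1 + vec τ T 2
        · obtain ⟨S', hS', hk⟩ := move_add hmono hW h0
          have k0 := hk 0
          have k1 := hk 1
          have k2 := hk 2
          simp only [e01, e02, if_true, if_false] at k0 k1 k2
          exact ih (d - 3) (by omega) S' hS' ⟨by omega, by omega, by omega⟩ (by omega)
        · obtain ⟨S', hS', hk⟩ := move_swap hA hW (i := 0) (j := 2) (by decide) h0 (by omega)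
          have k0 := hk 0
          have k1 := hk 1
          have k2 := hk 2
          simp only [e01, e02, e20, e21, if_true, if_false] at k0 k1 k2
          exact ih (d - 2) (by omega) S' hS' ⟨by omega, by omega, by omega⟩ (by omega)
      · obtain ⟨S', hS', hk⟩ := move_swap hA hW (i := 0) (j := 1) (by decide) h0 (by omega)
        have k0 := hk 0
        have k1 := hk 1
        have k2 := hk 2
        simp only [e01, e02, e10, e12, if_true, if_false] at k0 k1 k2
        exact ih (d - 1) (by omega) S' hS' ⟨by omega, by omega, by omega⟩ (by omega)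
    · by_cases c1 : vec τ S 0 + vec τ S 1 < vec τ T 0 + vec τ T 1
      · have h1 : vec τ S 1 < nn τ 1 := by omega
        by_cases c2 : vec τ S 0 + vec τ S 1 + vec τ S 2 < vec τ T 0 + vec τ T 1 + vec τ T 2
        · obtain ⟨S', hS', hk⟩ := move_add hmono hW h1
          have k0 := hk 0
          have k1 := hk 1
          have k2 := hk 2
          simp only [e10, e12, if_true, if_false] at k0 k1 k2
          exact ih (d - 2) (by omega) S' hS' ⟨by omega, by omega, by omega⟩ (by omega)
        · obtain ⟨S', hS', hk⟩ := move_swap hA hW (i := 1) (j := 2) (by decide) h1 (by omega)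
          have k0 := hk 0
          have k1 := hk 1
          have k2 := hk 2
          simp only [e10, e12, e20, e21, if_true, if_false] at k0 k1 k2
          exact ih (d - 1) (by omega) S' hS' ⟨by omega, by omega, by omega⟩ (by omega)
      · by_cases c2 : vec τ S 0 + vec τ S 1 + vec τ S 2 < vec τ T 0 + vec τ T 1 + vec τ T 2
        · have h2 : vec τ S 2 < nn τ 2 := by omega
          obtain ⟨S', hS', hk⟩ := move_add hmono hW h2
          have k0 := hk 0
          have k1 := hk 1
          have k2 := hk 2
          simp only [e20, e21, if_true, if_false] at k0 k1 k2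
          exact ih (d - 1) (by omega) S' hS' ⟨by omega, by omega, by omega⟩ (by omega)
        · refine win_of_vec_eq hmono τ (fun a b hab => hA a b hab.le) _ S T rfl ?_ hW
          funext k
          fin_cases k
          · show vec τ S 0 = vec τ T 0
            omega
          · show vec τ S 1 = vec τ T 1
            omega
          · show vec τ S 2 = vec τ T 2
            omega

/-- shift monotonicity -/
theorem br1 (hS : IsSimple W) (hA : ∀ u v, AtLeast W u v ↔ τ u ≤ τ v) {S T : Finset N} (hW : W S)
    (h : GE (vec τ T) (vec τ S)) : W T := by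
  have h' := h
  obtain ⟨g0, g1, g2⟩ := h'
  exact br1_aux hS.2.2 (fun u v huv => (hA u v).2 huv) T
    (3 * vec τ T 0 + 2 * vec τ T 1 + vec τ T 2 - (3 * vec τ S 0 + 2 * vec τ S 1 + vec τ S 2)) S hW h
    (by omega)

end Pool.Agent.Helper95.TQ
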