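import Pool.Agent.Helper95.TQ.BR1

/-!
# TQ, part BRIDGE (helper95)
-/

set_option autoImplicit false

namespace Pool.Agent.Helper95.TQ.BRIDGE

open Finset Pool.Agent.R6.Trade Pool.Agent.Helper89.TQ Pool.Agent.Helper95.TQ

variable {N : Type} [Fintype N] [DecidableEq N] {W : Finset N → Prop} {τ : N → Fin 3}

theorem ge_trans {x y z : Fin 3 → ℕ} (h : GE x y) (h' : GE y z) : GE x z := by
  obtain ⟨a0, a1, a2⟩ := h
  obtain ⟨b0, b1, b2⟩ := h'
  exact ⟨by omega, by omega, by omega⟩

theorem exists_min (d : ℕ) : ∀ S : Finset N, W S →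
    3 * vec τ S 0 + 2 * vec τ S 1 + vec τ S 2 = d → ∃ v, MinWin W τ v ∧ GE (vec τ S) v := by
  induction d using Nat.strong_induction_on with
  | _ d ih =>
    intro S hW hd
    by_cases h : MinWin W τ (vec τ S)
    · exact ⟨_, h, ⟨le_refl _, le_refl _, le_refl _⟩⟩
    · have h1 : ∃ S', W S' ∧ GE (vec τ S) (vec τ S') ∧ vec τ S' ≠ vec τ S := by
        by_contra hcon
        push Not at hcon
        exact h ⟨⟨S, hW, rfl⟩, hcon⟩
      obtain ⟨S', hW', hGE, hne⟩ := h1
      have hGE' := hGE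
      obtain ⟨g0, g1, g2⟩ := hGE'
      have hlt : 3 * vec τ S' 0 + 2 * vec τ S' 1 + vec τ S' 2 < d := by
        by_contra hge
        apply hne
        funext k
        fin_cases k
        · show vec τ S' 0 = vec τ S 0
          omega
        · show vec τ S' 1 = vec τ S 1
          omega
        · show vec τ S' 2 = vec τ S 2
          omega
      obtain ⟨v, hv, hv'⟩ := ih _ hlt S' hW' rfl
      exact ⟨v, hv, ge_trans hGE hv'⟩

theorem main : S_BRIDGE := by
  intro N _ _ W τ a b hS hsurj hA hab hmin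
  have hma : MinWin W τ a := (hmin a).2 (Or.inl rfl)
  have hmb : MinWin W τ b := (hmin b).2 (Or.inr rfl)
  obtain ⟨⟨Sa, hWa, hva⟩, hma'⟩ := hma
  obtain ⟨⟨Sb, hWb, hvb⟩, hmb'⟩ := hmb
  have hwin : ∀ S, W S ↔ Win a b (vec τ S) := by
    intro S
    constructor
    · intro hW
      obtain ⟨v, hv, hGE⟩ := exists_min (W := W) (τ := τ) _ S hW rfl
      rcases (hmin v).1 hv with rfl | rfl
      · exact Or.inl hGE
      · exact Or.inr hGE
    · rintro (h | h)
      · rw [← hva] at h
        exact br1 hS hA hWa h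
      · rw [← hvb] at h
        exact br1 hS hA hWb h
  have e01 : ((0 : Fin 3) = 1) = False := by simp
  have e02 : ((0 : Fin 3) = 2) = False := by simp
  have e10 : ((1 : Fin 3) = 0) = False := by simp
  have e12 : ((1 : Fin 3) = 2) = False := by simp
  have e20 : ((2 : Fin 3) = 0) = False := by simp
  have e21 : ((2 : Fin 3) = 1) = False := by simp
  refine ⟨fun i => hva ▸ vec_le τ Sa i, fun i => hvb ▸ vec_le τ Sb i, ?_, ?_, ?_, ?_, hwin⟩
  · intro h
    exact hab ((hvb.symm.trans (hma' Sb hWb (hvb.symm ▸ h))).symm)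
  · intro h
    exact hab (hva.symm.trans (hmb' Sa hWa (hva.symm ▸ h)))
  · obtain ⟨u, hu⟩ := hsurj 0
    obtain ⟨v, hv⟩ := hsurj 1
    have h1 : ¬ AtLeast W v u := by
      rw [hA, hu, hv]
      decide
    unfold AtLeast at h1
    push Not at h1
    obtain ⟨S, hvS, huS, hW1, hW2⟩ := h1
    rw [hwin] at hW1 hW2
    have x0 := vec_insert (τ := τ) huS 0
    have x1 := vec_insert (τ := τ) huS 1
    have x2 := vec_insert (τ := τ) huS 2
    have y0 := vec_insert (τ := τ) hvS 0
    have y1 := vec_insert (τ := τ) hvS 1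
    have y2 := vec_insert (τ := τ) hvS 2
    have n1 := vec_le τ (insert v S) 1
    simp only [hu, hv, e01, e02, e10, e12, if_true, if_false] at x0 x1 x2 y0 y1 y2
    have hW3 : ¬ GE (vec τ (insert v S)) a := fun h => hW2 (Or.inl h)
    have hW4 : ¬ GE (vec τ (insert v S)) b := fun h => hW2 (Or.inr h)
    unfold GE at hW3 hW4
    rcases hW1 with ⟨g0, g1, g2⟩ | ⟨g0, g1, g2⟩
    · left
      omega
    · right
      omega
  · obtain ⟨u, hu⟩ := hsurj 1
    obtain ⟨v, hv⟩ := hsurj 2
    have h1 : ¬ AtLeast W v u := by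
      rw [hA, hu, hv]
      decide
    unfold AtLeast at h1
    push Not at h1
    obtain ⟨S, hvS, huS, hW1, hW2⟩ := h1
    rw [hwin] at hW1 hW2
    have x0 := vec_insert (τ := τ) huS 0
    have x1 := vec_insert (τ := τ) huS 1
    have x2 := vec_insert (τ := τ) huS 2
    have y0 := vec_insert (τ := τ) hvS 0
    have y1 := vec_insert (τ := τ) hvS 1
    have y2 := vec_insert (τ := τ) hvS 2
    have n1 := vec_le τ (insert v S) 2
    simp only [hu, hv, e10, e12, e20, e21, if_true, if_false] at x0 x1 x2 y0 y1 y2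
    have hW3 : ¬ GE (vec τ (insert v S)) a := fun h => hW2 (Or.inl h)
    have hW4 : ¬ GE (vec τ (insert v S)) b := fun h => hW2 (Or.inr h)
    unfold GE at hW3 hW4
    rcases hW1 with ⟨g0, g1, g2⟩ | ⟨g0, g1, g2⟩
    · left
      omega
    · right
      omega

end Pool.Agent.Helper95.TQ.BRIDGE
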